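import Pool.Agent.X47.TG4

/-!
# All toric g-contribution polynomials are real-rooted

For all `n ≥ 1` and `0 ≤ j ≤ n / 2` the polynomial
`g_{n,j}(x) = ∑_k C_{n-k-j} binom(n-k,k) (x-1)^k` has only real zeros.

Proof. Put `z = 1 / (1 - x)` and let `S_j(z) = z ^ (n-j+1) g_{n,j}(x)`, a polynomial in `z`.

If `j ≥ 1` then `S_j` is, up to a constant, the derivative of order `j - 1` of the polynomial `R_j` with
`R_j(t ^ 2) = t ^ n D ^ (n - 2 j) (t ^ 2 - 1) ^ (n - j)`; by the theorem of Gauss and Lucas all its zeros
are real.

If `j = 0` then the derivative of `S_0` is `R_0`, with `R_0(t ^ 2) = t ^ n P_n(t)` for the Legendre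
polynomial `P_n` up to a constant. The orthogonality of `P_n` implies that the function equal to
`S_0(t ^ 2) t ^ (-n-2)` for `t < 1` and to `S_0(1) t ^ (-n-2)` for `t > 1` is orthogonal on the
half-line to the powers `t ^ b` with `b < n` of the parity of `n`. Hence it has at least `n / 2`
changes of sign, which are in the unit interval, and the other zeros of `S_0` are zero.
-/

set_option autoImplicit false

namespace Pool.Agent.Results.MP_141d57_co.ContributionPolynomials

open Polynomial Finset Pool.Agent.X47.TG

/-- The toric g-contribution polynomial `g_{n,j}`. -/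
noncomputable def g (n j : ℕ) : ℝ[X] :=
  ∑ k ∈ range (min (n / 2) (n - j) + 1),
    C ((catalan (n - k - j) : ℝ) * ((n - k).choose k : ℝ)) * (X - 1) ^ k

/-- A real polynomial is real-rooted if it is not zero and all its complex zeros are real. -/
def RealRooted (p : ℝ[X]) : Prop := p ≠ 0 ∧ ∀ z : ℂ, aeval z p = 0 → z.im = 0

/-- All toric g-contribution polynomials are real-rooted. -/
theorem result (n j : ℕ) (_hn : 1 ≤ n) (hj : j ≤ n / 2) : RealRooted (g n j) := by
  have hmin : min (n / 2) (n - j) = n / 2 := by omega
  constructor
  · intro h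
    have h1 : (g n j).eval 1 = (catalan (n - j) : ℝ) := by
      unfold g
      rw [eval_finsetSum, sum_eq_single 0]
      · simp
      · intro k _ hk
        rw [eval_mul, eval_pow, eval_sub, eval_X, eval_one, sub_self, zero_pow hk, mul_zero]
      · intro h0
        simp at h0
    rw [h, eval_zero] at h1
    have h2 : (0 : ℝ) < (catalan (n - j) : ℝ) := by exact_mod_cast catalan_pos (n - j)
    linarith
  · intro z hz
    unfold g at hz
    rw [hmin, map_sum] at hz
    have h1 : ∀ k ∈ range (n / 2 + 1),
        aeval z (C ((catalan (n - k - j) : ℝ) * ((n - k).choose k : ℝ)) * (X - 1) ^ k : ℝ[X]) =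
          ((catalan (n - k - j) : ℂ) * ((n - k).choose k : ℂ)) * (z - 1) ^ k := by
      intro k _
      simp
    rw [sum_congr rfl h1] at hz
    rcases Nat.eq_zero_or_pos j with rfl | hj1
    · apply zero_case (n := n)
      rw [← hz]
      refine sum_congr rfl fun k _ => ?_
      unfold aa
      simp
    · apply pos_case hj1 (show 2 * j ≤ n by omega)
      rw [← hz]
      symm
      refine sum_subset (range_subset_range.2 (by omega)) fun k hk hk2 => ?_
      rw [mem_range] at hk hk2
      rw [Nat.choose_eq_zero_of_lt (by omega)]
      simp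

end Pool.Agent.Results.MP_141d57_co.ContributionPolynomials
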